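import Pool.Agent.H92.OG.Defs

set_option autoImplicit false

/-!
# The sum of the values of the character at the squares

`∑ chi (g ^ 2) = ∑ rt g * chi g`, `rt` is a class function, `Re eps m 0 = (m - 1) / 2` and
`Re eps m k = -1 / 2` for `0 < k < m`.
-/

namespace Pool.Agent.H66.OR

open Finset Pool.Agent.H82.CO

theorem rt_conj {G : Type} [Group G] [Fintype G] (x g : G) : rt (x * g * x⁻¹) = rt g := by
  classical
  rw [rt, rt]
  refine Fintype.sum_equiv (MulAut.conj x⁻¹).toEquiv _ _ fun u => ?_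
  have h2 : u ^ 2 = x * g * x⁻¹ ↔ ((MulAut.conj x⁻¹).toEquiv u) ^ 2 = g := by
    have e : ((MulAut.conj x⁻¹).toEquiv u) = x⁻¹ * u * x := by
      simp
    rw [e]
    constructor
    · intro h
      have h3 : (x⁻¹ * u * x) ^ 2 = x⁻¹ * u ^ 2 * x := by
        rw [sq, sq]
        group
      rw [h3, h]
      group
    · intro h
      have h3 : u ^ 2 = x * (x⁻¹ * u * x) ^ 2 * x⁻¹ := by
        rw [sq, sq]
        group
      rw [h3, h]
  simp only [h2]

theorem fs_formula {G : Type} [Group G] [Fintype G] {N : ℕ} (s : Fin N → G) :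
    ∑ g : G, (chi s (g ^ 2)).re = (Nat.card G : ℝ) +
      (Nat.card G : ℝ) * rt (1 : G) * (nu s - 2) / 2 -
      (Nat.card G : ℝ) / 2 * ∑ i, Pool.Agent.H92.OG.y (s i) *
        ∑ k ∈ Finset.Ico 1 (orderOf (s i)), rt (s i ^ k) := by
  classical
  rw [sum_comp_sq fun g => (chi s g).re]
  have h1 : ∀ g : G, (chi s g).re = 1 - (if g = 1 then (Nat.card G : ℝ) else 0) +
      ∑ i, (1 / (orderOf (s i) : ℝ)) * ∑ x : G, ∑ k ∈ range (orderOf (s i)),
        (if x * s i ^ k * x⁻¹ = g then (eps (orderOf (s i)) k).re else 0) := by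
    intro g
    unfold chi
    rw [Complex.add_re, Complex.sub_re, Complex.one_re, Complex.re_sum]
    congr 1
    · congr 1
      split_ifs <;> simp
    · refine sum_congr rfl fun i _ => ?_
      have e : (1 / (orderOf (s i) : ℂ)) = ((1 / (orderOf (s i) : ℝ) : ℝ) : ℂ) := by
        push_cast
        rfl
      rw [e, Complex.re_ofReal_mul, Complex.re_sum]
      congr 1
      refine sum_congr rfl fun x _ => ?_
      rw [Complex.re_sum]
      refine sum_congr rfl fun k _ => ?_
      split_ifs <;> simp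
  have h5 : ∀ g : G, rt g * (chi s g).re = rt g - (if g = 1 then (Nat.card G : ℝ) * rt (1 : G)
      else 0) + ∑ i, (1 / (orderOf (s i) : ℝ)) * ∑ x : G, ∑ k ∈ range (orderOf (s i)),
        (if x * s i ^ k * x⁻¹ = g then rt (s i ^ k) * (eps (orderOf (s i)) k).re else 0) := by
    intro g
    rw [h1 g, mul_add, mul_sub, mul_one, mul_sum]
    congr 1
    · congr 1
      split_ifs with h
      · rw [h, mul_comm]
      · rw [mul_zero]
    · refine sum_congr rfl fun i _ => ?_
      rw [mul_left_comm, mul_sum]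
      congr 1
      refine sum_congr rfl fun x _ => ?_
      rw [mul_sum]
      refine sum_congr rfl fun k _ => ?_
      split_ifs with h
      · rw [← h, rt_conj]
      · rw [mul_zero]
  rw [sum_congr rfl fun g _ => h5 g, sum_add_distrib, sum_sub_distrib, sum_rt, sum_ite_eq',
    if_pos (mem_univ _), sum_comm]
  have h6 : ∀ i : Fin N, ∑ g : G, (1 / (orderOf (s i) : ℝ)) * ∑ x : G, ∑ k ∈ range (orderOf (s i)),
      (if x * s i ^ k * x⁻¹ = g then rt (s i ^ k) * (eps (orderOf (s i)) k).re else 0) =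
      (Nat.card G : ℝ) * rt (1 : G) / 2 * (1 - 1 / (orderOf (s i) : ℝ)) -
        (Nat.card G : ℝ) / 2 * (Pool.Agent.H92.OG.y (s i) *
          ∑ k ∈ Finset.Ico 1 (orderOf (s i)), rt (s i ^ k)) := by
    intro i
    have hm := orderOf_pos (s i)
    have hm' : (orderOf (s i) : ℝ) ≠ 0 := by exact_mod_cast hm.ne'
    rw [← mul_sum, sum_comm]
    have h7 : ∀ x : G, ∑ g : G, ∑ k ∈ range (orderOf (s i)),
        (if x * s i ^ k * x⁻¹ = g then rt (s i ^ k) * (eps (orderOf (s i)) k).re else 0) =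
        ∑ k ∈ range (orderOf (s i)), rt (s i ^ k) * (eps (orderOf (s i)) k).re := by
      intro x
      rw [sum_comm]
      refine sum_congr rfl fun k _ => ?_
      rw [sum_ite_eq, if_pos (mem_univ _)]
    rw [sum_congr rfl fun x _ => h7 x, sum_const, card_univ, nsmul_eq_mul,
      ← Nat.card_eq_fintype_card]
    have h8 : ∑ k ∈ range (orderOf (s i)), rt (s i ^ k) * (eps (orderOf (s i)) k).re =
        rt (1 : G) * (((orderOf (s i) : ℝ) - 1) / 2) -
          1 / 2 * ∑ k ∈ Finset.Ico 1 (orderOf (s i)), rt (s i ^ k) := by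
      have h9 : ∑ k ∈ Finset.Ico 1 (orderOf (s i)), rt (s i ^ k) * (eps (orderOf (s i)) k).re =
          -(1 / 2) * ∑ k ∈ Finset.Ico 1 (orderOf (s i)), rt (s i ^ k) := by
        rw [mul_sum]
        refine sum_congr rfl fun k hk => ?_
        obtain ⟨hk1, hk2⟩ := mem_Ico.1 hk
        rw [re_eps (by omega) hk2]
        ring
      rw [range_eq_Ico, sum_eq_sum_Ico_succ_bot hm, pow_zero, eps_zero hm, Complex.ofReal_re,
        zero_add, h9]
      ring
    rw [h8, Pool.Agent.H92.OG.y]
    field_simp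
  rw [sum_congr rfl fun i _ => h6 i, sum_sub_distrib, ← mul_sum, ← mul_sum]
  unfold nu
  ring

end Pool.Agent.H66.OR
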